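import Pool.Agent.H61.KW.TC

/-!
Kuiper board KW, row COF.
-/

open Topology Set
open Pool.Agent.H59 Pool.Agent.H64.LB Pool.Agent.H61.KU Pool.Agent.H61.KV Pool.Agent.H61.KW
open scoped unitInterval

namespace Pool.Agent.H20.KW.COF

theorem pf_COF : T_COF := by
  intro V _ _ _ m K hS q q' t s hq hq' hov ht ht' hs hqs
  have hC := K.cc
  have hqC := K.mem q hq
  have hqC' := K.mem q' hq'
  have hsC : s ∈ Cn m := mem_C hs
  have htC : t ∈ Cn m := mem_C ht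
  have h0 : q' + s ∈ Cn m := hC.add q' hqC' s hsC
  have h1 : q' ∈ Fc (Cn m) (q' + s) := left_fc hC hqC' hsC
  have h2 : s ∈ Fc (Cn m) (q' + s) := right_fc hC hqC' hsC
  have h3 : t ∈ Fc (Cn m) (q' + s) := tra hC h0 h1 ht'
  have h4 : s + t ∈ Fc (Cn m) (q' + s) := add_fc hC h0 h2 h3
  have h5 : q ∈ Fc (Cn m) (q' + s) := tra hC h0 h4 hqs
  have h6 : Ov (Cn m) q' s := ov_of hov h5 h1
  exact ⟨h6, fun hx => hS q' s hq' hx h6⟩

end Pool.Agent.H20.KW.COF
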