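import Pool.Agent.H61.KW.TC

/-!
Kuiper board KW, row II2.
-/

open Topology Set
open Pool.Agent.H59 Pool.Agent.H64.LB Pool.Agent.H61.KU Pool.Agent.H61.KV Pool.Agent.H61.KW
open scoped unitInterval

set_option linter.unusedVariables false

namespace Pool.Agent.H20.KW.II2

theorem pf_II2 (h : T_F5U) (h2 : T_SML) (h3 : T_TFT) (h4 : Pool.Agent.H61.KW.T_TWO) (h5 : T_DSB) (h6 : T_DSA)
    (h7 : T_EXA) (h8 : T_G5N) : T_II2 := by
  intro V _ _ _ m q g e t R he ht heq htq hge hgt hq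
  have K := R.kit
  have hC := K.cc
  have hqC := K.mem q R.ef
  have hgC : g ∈ Cn m := R.tf.mem
  have heC : e ∈ Cn m := mem_C heq
  have htC : t ∈ Cn m := ht.1
  obtain ⟨β, z, y, hβ, hz, hy, hzx, hyx, D1, D2, hgi, hgf, hrkg, -, -, hP, hP'⟩ :=
    h V m K q g t R.ef R.tf ht htq hgt
  have hβC : β ∈ Cn m := mem_C hβ
  have hzC : z ∈ Cn m := hzx.1
  have hyC : y ∈ Cn m := hyx.1
  have hrk4 := R.rk4
  have hrβ : rk (Cn m) β = 2 := by omega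
  obtain ⟨b₁, b₂, hb1x, hb2x, Db, hbβ, hβb⟩ := h4 V (Cn m) β hC hβC hrβ
  have hb1C : b₁ ∈ Cn m := hb1x.1
  have hb2C : b₂ ∈ Cn m := hb2x.1
  obtain ⟨hb1β, hb2β⟩ := face hC hβC hb1C hb2C hbβ
  have hb1g : b₁ ∈ Fc (Cn m) g := tra hC hgC hβ hb1β
  have hb2g : b₂ ∈ Fc (Cn m) g := tra hC hgC hβ hb2β
  have hrt : rk (Cn m) t = 1 := ex_rk hC ht
  -- direct sums
  have Dge : Dsum (Cn m) g e := (h2 V m q g R).2.1 e heq (by rw [hge, he])
  have Dgt : Dsum (Cn m) g t := (h2 V m q g R).2.1 t htq (by rw [hgt, hrt])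
  have hzyC : z + y ∈ Cn m := hC.add z hzC y hyC
  have hzzy : z ∈ Fc (Cn m) (z + y) := left_fc hC hzC hyC
  have hyzy : y ∈ Fc (Cn m) (z + y) := right_fc hC hzC hyC
  have S1 := (h5 V (Cn m) β (z + y) hC D1).2.2.1
  have Sge := (h5 V (Cn m) g e hC Dge).2.2.1
  have Sgt := (h5 V (Cn m) g t hC Dgt).2.2.1
  have hee : e ∈ Fc (Cn m) e := self hC heC
  have htt : t ∈ Fc (Cn m) t := self hC htC
  -- the essential face P and the foot y + e
  have Dye : Dsum (Cn m) y e := Sge y hy e hee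
  have hyeC : y + e ∈ Cn m := hC.add y hyC e heC
  have hrye : rk (Cn m) (y + e) = 3 := by
    rw [(h5 V (Cn m) y e hC Dye).1, ex_rk hC hyx, he]
  have hyeM : y + e ∈ Mh m := K.low (y + e) hyeC hrye.le (self hC hyeC)
  have hPC : (β + t) + z ∈ Cn m := K.mem _ hP
  have hβtC : β + t ∈ Cn m := hC.add β hβC t htC
  have hβtP : β + t ∈ Fc (Cn m) ((β + t) + z) := left_fc hC hβtC hzC
  have hβP : β ∈ Fc (Cn m) ((β + t) + z) := tra hC hPC hβtP (left_fc hC hβC htC)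
  have htP : t ∈ Fc (Cn m) ((β + t) + z) := tra hC hPC hβtP (right_fc hC hβC htC)
  have hzP : z ∈ Fc (Cn m) ((β + t) + z) := right_fc hC hβtC hzC
  have hov1 : Ov (Cn m) ((β + t) + z) (y + e) := by
    have hw : ((β + t) + z) + (y + e) ∈ Cn m := hC.add _ hPC _ hyeC
    have i1 := left_fc hC hPC hyeC
    have i2 := right_fc hC hPC hyeC
    have i3 := tra hC hw i2 (left_fc hC hyC heC)
    have i4 := tra hC hw i2 (right_fc hC hyC heC)
    refine ov_of R.tf.ov ?_ ?_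
    · exact tra hC hw (add_fc hC hw i4 (tra hC hw i1 htP)) hq
    · exact tra hC hw (add_fc hC hw (tra hC hw i1 hβP)
        (add_fc hC hw (tra hC hw i1 hzP) i3)) hgf
  have T1 : Tf m ((β + t) + z) (y + e) := K.ovf _ _ hP hyeM hov1
  have hb1P : b₁ ∈ Fc (Cn m) ((β + t) + z) := tra hC hPC hβP hb1β
  have hQ : Ef m ((y + e) + b₁) := by
    refine (h3 V m K _ _ b₁ hP T1 hb1P hb1x.2.1).2.2.2.1 ?_
    have i1 : (y + e) + b₁ = (b₁ + y) + e := by abel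
    have i2 : Dsum (Cn m) b₁ y := S1 b₁ hb1β y hyzy
    have i3 : Dsum (Cn m) (b₁ + y) e := Sge (b₁ + y) (add_fc hC hgC hb1g hy) e hee
    rw [i1, (h5 V (Cn m) _ _ hC i3).1, (h5 V (Cn m) _ _ hC i2).1, ex_rk hC hb1x, ex_rk hC hyx, he]
  -- the foot (b₂ + z) + t
  have hb2zC : b₂ + z ∈ Cn m := hC.add _ hb2C _ hzC
  have hb2zg : b₂ + z ∈ Fc (Cn m) g := add_fc hC hgC hb2g hz
  have Db2zt : Dsum (Cn m) (b₂ + z) t := Sgt (b₂ + z) hb2zg t htt
  have Db2z : Dsum (Cn m) b₂ z := S1 b₂ hb2β z hzzy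
  have hwC : (b₂ + z) + t ∈ Cn m := hC.add _ hb2zC _ htC
  have hrw : rk (Cn m) ((b₂ + z) + t) = 3 := by
    rw [(h5 V (Cn m) _ _ hC Db2zt).1, (h5 V (Cn m) _ _ hC Db2z).1, ex_rk hC hb2x,
      ex_rk hC hzx, hrt]
  have hwM : (b₂ + z) + t ∈ Mh m := K.low _ hwC hrw.le (self hC hwC)
  have hQC : (y + e) + b₁ ∈ Cn m := K.mem _ hQ
  have hyQ : y ∈ Fc (Cn m) ((y + e) + b₁) :=
    tra hC hQC (left_fc hC hyeC hb1C) (left_fc hC hyC heC)
  have heQ : e ∈ Fc (Cn m) ((y + e) + b₁) :=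
    tra hC hQC (left_fc hC hyeC hb1C) (right_fc hC hyC heC)
  have hb1Q : b₁ ∈ Fc (Cn m) ((y + e) + b₁) := right_fc hC hyeC hb1C
  have hov2 : Ov (Cn m) ((y + e) + b₁) ((b₂ + z) + t) := by
    have hw : ((y + e) + b₁) + ((b₂ + z) + t) ∈ Cn m := hC.add _ hQC _ hwC
    have i1 := left_fc hC hQC hwC
    have i2 := right_fc hC hQC hwC
    have i3 := tra hC hw i2 (left_fc hC hb2zC htC)
    have i4 := tra hC hw i2 (right_fc hC hb2zC htC)
    have i5 := tra hC hw i3 (left_fc hC hb2C hzC)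
    have i6 := tra hC hw i3 (right_fc hC hb2C hzC)
    have i7 := tra hC hw (add_fc hC hw (tra hC hw i1 hb1Q) i5) hβb
    refine ov_of R.tf.ov ?_ ?_
    · exact tra hC hw (add_fc hC hw (tra hC hw i1 heQ) i4) hq
    · exact tra hC hw (add_fc hC hw i7 (add_fc hC hw i6 (tra hC hw i1 hyQ))) hgf
  have T2 : Tf m ((y + e) + b₁) ((b₂ + z) + t) := K.ovf _ _ hQ hwM hov2
  have hW : Ef m (((b₂ + z) + t) + y) := by
    refine (h3 V m K _ _ y hQ T2 hyQ hyx.2.1).2.2.2.1 ?_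
    have i1 : ((b₂ + z) + t) + y = (b₂ + (z + y)) + t := by abel
    have i2 : Dsum (Cn m) b₂ (z + y) := S1 b₂ hb2β (z + y) (self hC hzyC)
    have i4 : z + y ∈ Fc (Cn m) g := add_fc hC hgC hz hy
    have i3 : Dsum (Cn m) (b₂ + (z + y)) t := Sgt _ (add_fc hC hgC hb2g i4) t htt
    rw [i1, (h5 V (Cn m) _ _ hC i3).1, (h5 V (Cn m) _ _ hC i2).1, (h5 V (Cn m) _ _ hC D2).1,
      ex_rk hC hb2x, ex_rk hC hzx, ex_rk hC hyx, hrt]
  -- the simplicial face of rank 5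
  have hfC : g + t ∈ Cn m := hC.add _ hgC _ htC
  have hgf' : g ∈ Fc (Cn m) (g + t) := left_fc hC hgC htC
  have htf' : t ∈ Fc (Cn m) (g + t) := right_fc hC hgC htC
  have hbbC : b₁ + b₂ ∈ Cn m := hC.add _ hb1C _ hb2C
  have hbbg : b₁ + b₂ ∈ Fc (Cn m) g := add_fc hC hgC hb1g hb2g
  have hzyg : z + y ∈ Fc (Cn m) g := add_fc hC hgC hz hy
  have hsg : (b₁ + b₂) + (z + y) ∈ Fc (Cn m) g := add_fc hC hgC hbbg hzyg
  have Dbb : Dsum (Cn m) (b₁ + b₂) (z + y) := S1 (b₁ + b₂) hbβ (z + y) (self hC hzyC)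
  have Dst : Dsum (Cn m) ((b₁ + b₂) + (z + y)) t := Sgt _ hsg t htt
  have hsC : (b₁ + b₂) + (z + y) ∈ Cn m := hC.add _ hbbC _ hzyC
  have hstC : ((b₁ + b₂) + (z + y)) + t ∈ Cn m := hC.add _ hsC _ htC
  have hfs : g + t ∈ Fc (Cn m) (((b₁ + b₂) + (z + y)) + t) := by
    have i1 := left_fc hC hsC htC
    have i2 := right_fc hC hsC htC
    have i3 := tra hC hstC i1 (left_fc hC hbbC hzyC)
    have i4 := tra hC hstC i1 (right_fc hC hbbC hzyC)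
    have i5 := tra hC hstC i3 hβb
    exact add_fc hC hstC (tra hC hstC (add_fc hC hstC i5 i4) hgf) i2
  have hsf : ((b₁ + b₂) + (z + y)) + t ∈ Fc (Cn m) (g + t) :=
    add_fc hC hfC (tra hC hfC hgf' hsg) htf'
  have hGen : Gen (Cn m) ![b₁, z, y, b₂, t] (g + t) :=
    h8 V (Cn m) b₁ b₂ z y t (g + t) hC hb1x hb2x hzx hyx ht Db D2 Dbb Dst hfC hfs hsf
  have ht0 : t ≠ 0 := ht.2.1
  have hno := (h3 V m K q g t R.ef R.tf htq ht0).2.2.2.2.2
  refine h7 V m K ![b₁, z, y, b₂, t] (g + t) hfC hGen (fun w hw1 hw2 => hno w hw2 hw1) ?_ ?_ ?_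
  · have i1 : (![b₁, z, y, b₂, t] : Fin 5 → V) 1 + (![b₁, z, y, b₂, t] : Fin 5 → V) 2 +
        (![b₁, z, y, b₂, t] : Fin 5 → V) 3 + (![b₁, z, y, b₂, t] : Fin 5 → V) 4 =
        ((b₂ + z) + t) + y := by
      change z + y + b₂ + t = ((b₂ + z) + t) + y
      abel
    rw [i1]
    exact hW
  · have i1 : (![b₁, z, y, b₂, t] : Fin 5 → V) 0 + (![b₁, z, y, b₂, t] : Fin 5 → V) 2 +
        (![b₁, z, y, b₂, t] : Fin 5 → V) 3 + (![b₁, z, y, b₂, t] : Fin 5 → V) 4 =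
        ((b₁ + b₂) + t) + y := by
      change b₁ + y + b₂ + t = ((b₁ + b₂) + t) + y
      abel
    rw [i1]
    have j0 : ((b₁ + b₂) + t) ∈ Cn m := hC.add _ hbbC _ htC
    have j1 : Fc (Cn m) ((b₁ + b₂) + t) = Fc (Cn m) (β + t) :=
      fc_add_congr hC hβC htC hbβ hβb htt htt
    have j2 : Fc (Cn m) (((b₁ + b₂) + t) + y) = Fc (Cn m) ((β + t) + y) :=
      fc_add_congr hC hβtC hyC (by rw [← j1]; exact self hC j0) (by rw [j1]; exact self hC hβtC)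
        (self hC hyC) (self hC hyC)
    refine K.congr _ _ hP' ?_ ?_
    · rw [← j2]; exact self hC (hC.add _ j0 _ hyC)
    · rw [j2]; exact self hC (K.mem _ hP')
  · have i1 : (![b₁, z, y, b₂, t] : Fin 5 → V) 0 + (![b₁, z, y, b₂, t] : Fin 5 → V) 1 +
        (![b₁, z, y, b₂, t] : Fin 5 → V) 3 + (![b₁, z, y, b₂, t] : Fin 5 → V) 4 =
        ((b₁ + b₂) + t) + z := by
      change b₁ + z + b₂ + t = ((b₁ + b₂) + t) + z
      abel
    rw [i1]
    have j0 : ((b₁ + b₂) + t) ∈ Cn m := hC.add _ hbbC _ htC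
    have j1 : Fc (Cn m) ((b₁ + b₂) + t) = Fc (Cn m) (β + t) :=
      fc_add_congr hC hβC htC hbβ hβb htt htt
    have j2 : Fc (Cn m) (((b₁ + b₂) + t) + z) = Fc (Cn m) ((β + t) + z) :=
      fc_add_congr hC hβtC hzC (by rw [← j1]; exact self hC j0) (by rw [j1]; exact self hC hβtC)
        (self hC hzC) (self hC hzC)
    refine K.congr _ _ hP ?_ ?_
    · rw [← j2]; exact self hC (hC.add _ j0 _ hzC)
    · rw [j2]; exact self hC hPC

end Pool.Agent.H20.KW.II2
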