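import Pool.Agent.H61.KW.TC

/-!
Kuiper board KW, row NCC.
-/

open Topology Set
open Pool.Agent.H59 Pool.Agent.H64.LB Pool.Agent.H61.KU Pool.Agent.H61.KV Pool.Agent.H61.KW
open scoped unitInterval

namespace Pool.Agent.H20.KW.NCC

theorem pf_NCC (h : T_F5U) (h2 : T_SML) (h3 : T_NR2) (h4 : T_DSB) : T_NCC := by
  intro V _ _ _ m q g t u R ht hu htq huq hgt hgu hq
  have K := R.kit
  have hC := K.cc
  have hqC := K.mem q R.ef
  have hgC : g ∈ Cn m := R.tf.mem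
  obtain ⟨β, z, y, hβ, hz, hy, hzx, hyx, -, -, -, hgf, -, -, -, hP, -⟩ :=
    h V m K q g t R.ef R.tf ht htq hgt
  have hβC : β ∈ Cn m := mem_C hβ
  have hru : rk (Cn m) u = 1 := ex_rk hC hu
  have hD : Dsum (Cn m) g u := (h2 V m q g R).2.1 u huq (by rw [hgu, hru])
  have hDyu : Dsum (Cn m) y u := (h4 V (Cn m) g u hC hD).2.2.1 y hy u (self hC hu.1)
  have hrk : rk (Cn m) (y + u) = 2 := by
    rw [(h4 V (Cn m) y u hC hDyu).1, ex_rk hC hyx, hru]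
  have hyuC : y + u ∈ Cn m := hC.add y hyx.1 u hu.1
  have hM : y + u ∈ Mh m := K.low (y + u) hyuC (by omega) (self hC hyuC)
  have hPC : (β + t) + z ∈ Cn m := K.mem _ hP
  have hw : ((β + t) + z) + (y + u) ∈ Cn m := hC.add _ hPC _ hyuC
  have h5 : (β + t) + z ∈ Fc (Cn m) (((β + t) + z) + (y + u)) := left_fc hC hPC hyuC
  have h6 : y + u ∈ Fc (Cn m) (((β + t) + z) + (y + u)) := right_fc hC hPC hyuC
  have hβt : β + t ∈ Cn m := hC.add β hβC t ht.1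
  obtain ⟨h7, h8⟩ := face hC hw hβt hzx.1 h5
  obtain ⟨h9, h10⟩ := face hC hw hβC ht.1 h7
  obtain ⟨h11, h12⟩ := face hC hw hyx.1 hu.1 h6
  have h13 : q ∈ Fc (Cn m) (((β + t) + z) + (y + u)) := tra hC hw (add_fc hC hw h10 h12) hq
  have h14 : g ∈ Fc (Cn m) (((β + t) + z) + (y + u)) :=
    tra hC hw (add_fc hC hw h9 (add_fc hC hw h8 h11)) hgf
  have hov : Ov (Cn m) ((β + t) + z) (y + u) := ov_of R.tf.ov h13 h14
  have h15 := h3 V m K R.star _ _ hP (K.ovf _ _ hP hM hov)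
  omega

end Pool.Agent.H20.KW.NCC
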